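import Pool.Agent.H867.FT.Gen11

set_option autoImplicit false

namespace Pool.Agent.H16.FT867CEK

open Pool.Agent.H867.FT

theorem swap {R : Type} [CommRing R] (p : ℕ) (hp : 0 < p) (φ : R →+ R) (hφ : IsCartier p φ)
    (a s b t : R) (h : a * t = b * s) : t * φ (a * s ^ (p - 1)) = s * φ (b * t ^ (p - 1)) := by
  rw [← hφ t, ← hφ s]
  congr 1
  obtain ⟨q, rfl⟩ : ∃ q, p = q + 1 := ⟨p - 1, by omega⟩
  rw [Nat.add_sub_cancel, pow_succ t, pow_succ s]
  linear_combination (t ^ q * s ^ q) * h

theorem cek : S_CEK := by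
  intro p hpf R K _ _ _ _ _ φ hφ
  have hp : 0 < p := hpf.out.pos
  have hinj : Function.Injective (algebraMap R K) := IsFractionRing.injective R K
  have hne : ∀ s : R, s ≠ 0 → algebraMap R K s ≠ 0 := fun s hs h =>
    hs (hinj (by rw [h, map_zero]))
  have hsurj : ∀ z : K, ∃ a s : R, s ≠ 0 ∧ algebraMap R K a / algebraMap R K s = z := by
    intro z
    obtain ⟨a, s, hs, h⟩ := IsFractionRing.div_surjective (A := R) z
    exact ⟨a, s, nonZeroDivisors.ne_zero hs, h⟩
  choose num den hden hnd using hsurj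
  let Φ : K → K := fun z => algebraMap R K (φ (num z * den z ^ (p - 1))) / algebraMap R K (den z)
  have key : ∀ (z : K) (a s : R), s ≠ 0 → algebraMap R K a / algebraMap R K s = z →
      Φ z = algebraMap R K (φ (a * s ^ (p - 1))) / algebraMap R K s := by
    intro z a s hs h
    show algebraMap R K (φ (num z * den z ^ (p - 1))) / algebraMap R K (den z) = _
    have h1 : num z * s = a * den z := by
      apply hinj
      rw [map_mul, map_mul]
      have h2 := (hnd z).trans h.symm
      rwa [div_eq_div_iff (hne _ (hden z)) (hne _ hs)] at h2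
    rw [div_eq_div_iff (hne _ (hden z)) (hne _ hs)]
    have h3 := congrArg (algebraMap R K) (swap p hp φ hφ _ _ _ _ h1)
    rw [map_mul (algebraMap R K), map_mul (algebraMap R K)] at h3
    rw [mul_comm, h3, mul_comm]
  have hadd : ∀ x y : K, Φ (x + y) = Φ x + Φ y := by
    intro x y
    obtain ⟨a, s, hs, hx⟩ := (⟨num x, den x, hden x, hnd x⟩ :
      ∃ a s : R, s ≠ 0 ∧ algebraMap R K a / algebraMap R K s = x)
    obtain ⟨b, t, ht, hy⟩ := (⟨num y, den y, hden y, hnd y⟩ :
      ∃ a s : R, s ≠ 0 ∧ algebraMap R K a / algebraMap R K s = y)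
    have hst : s * t ≠ 0 := mul_ne_zero hs ht
    have hs' := hne s hs
    have ht' := hne t ht
    have hx2 : algebraMap R K (a * t) / algebraMap R K (s * t) = x := by
      rw [← hx, map_mul, map_mul]
      field_simp
    have hy2 : algebraMap R K (b * s) / algebraMap R K (s * t) = y := by
      rw [← hy, map_mul, map_mul]
      field_simp
    have hxy : algebraMap R K (a * t + b * s) / algebraMap R K (s * t) = x + y := by
      rw [map_add, add_div, hx2, hy2]
    rw [key _ _ _ hst hxy, key _ _ _ hst hx2, key _ _ _ hst hy2, add_mul, map_add, map_add, add_div]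
  refine ⟨AddMonoidHom.mk' Φ hadd, ?_, ?_⟩
  · intro x y
    show Φ (x ^ p * y) = x * Φ y
    obtain ⟨a, s, hs, hx⟩ := (⟨num x, den x, hden x, hnd x⟩ :
      ∃ a s : R, s ≠ 0 ∧ algebraMap R K a / algebraMap R K s = x)
    obtain ⟨b, t, ht, hy⟩ := (⟨num y, den y, hden y, hnd y⟩ :
      ∃ a s : R, s ≠ 0 ∧ algebraMap R K a / algebraMap R K s = y)
    have hs' := hne s hs
    have ht' := hne t ht
    have hst : s ^ p * t ≠ 0 := mul_ne_zero (pow_ne_zero _ hs) ht
    have hxy : algebraMap R K (a ^ p * b) / algebraMap R K (s ^ p * t) = x ^ p * y := by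
      rw [← hx, ← hy, map_mul, map_mul, map_pow, map_pow, div_pow, div_mul_div_comm]
    rw [key _ _ _ hst hxy, key _ _ _ ht hy]
    have h1 : φ (a ^ p * b * (s ^ p * t) ^ (p - 1)) = a * (s ^ (p - 1) * φ (b * t ^ (p - 1))) := by
      rw [← hφ (s ^ (p - 1)), ← hφ a]
      congr 1
      rw [mul_pow, ← pow_mul, ← pow_mul, mul_comm p (p - 1)]
      ring
    rw [h1, ← hx]
    simp only [map_mul (algebraMap R K), map_pow (algebraMap R K)]
    have h2 : algebraMap R K s ^ p = algebraMap R K s ^ (p - 1) * algebraMap R K s := by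
      rw [← pow_succ, Nat.sub_add_cancel hp]
    rw [h2]
    have h3 : algebraMap R K s ^ (p - 1) ≠ 0 := pow_ne_zero _ hs'
    field_simp
  · intro r
    show Φ (algebraMap R K r) = _
    rw [key (algebraMap R K r) r 1 one_ne_zero (by rw [map_one, div_one]), one_pow, mul_one,
      map_one, div_one]

end Pool.Agent.H16.FT867CEK
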