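import Pool.Agent.H683.SC.PosStm
set_option autoImplicit false

namespace Pool.Agent.H16.SPDIG

/-- sums of digits are small -/
theorem sum_lt (b : ℕ) (c : ℕ → ℕ) (hc : ∀ i, c i < b) (m : ℕ) :
    ∑ i ∈ Finset.range m, b ^ i * c i < b ^ m := by
  induction m with
  | zero => simp
  | succ m ih =>
    rw [Finset.sum_range_succ, pow_succ]
    have h1 : b ^ m * (c m + 1) ≤ b ^ m * b := Nat.mul_le_mul_left _ (hc m)
    rw [Nat.mul_add, mul_one] at h1
    omega

/-- reading off a digit -/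
theorem digit (b : ℕ) (c : ℕ → ℕ) (hc : ∀ i, c i < b) (m : ℕ) (i : ℕ) (hi : i < m) :
    (∑ j ∈ Finset.range m, b ^ j * c j) / b ^ i % b = c i := by
  have hb : 0 < b := (Nat.zero_le _).trans_lt (hc 0)
  induction m with
  | zero => omega
  | succ m ih =>
    rw [Finset.sum_range_succ]
    rcases Nat.lt_succ_iff_lt_or_eq.1 hi with h | h
    · have h1 : b ^ m = b ^ i * (b * b ^ (m - i - 1)) := by
        rw [← pow_succ', ← pow_add]
        congr 1
        omega
      rw [h1, mul_assoc, Nat.add_mul_div_left _ _ (pow_pos hb i), mul_assoc, Nat.add_mul_mod_self_left]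
      exact ih h
    · subst h
      rw [Nat.add_mul_div_left _ _ (pow_pos hb i), Nat.div_eq_of_lt (sum_lt b c hc i), zero_add,
        Nat.mod_eq_of_lt (hc i)]

theorem dig (n q : ℕ) (a : ℕ → ℕ → ℕ) (ha : ∀ i j, a i j < q) (i : ℕ) (hi : i ≤ n) (j : ℕ)
    (hj : j ≤ n) :
    (∑ i ∈ Finset.range (n + 1), ∑ j ∈ Finset.range (n + 1), (q ^ (n + 1)) ^ i * q ^ j * a i j) /
      (q ^ (n + 1)) ^ i % q ^ (n + 1) / q ^ j % q = a i j := by
  have h1 : ∀ i, ∑ j ∈ Finset.range (n + 1), (q ^ (n + 1)) ^ i * q ^ j * a i j =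
      (q ^ (n + 1)) ^ i * ∑ j ∈ Finset.range (n + 1), q ^ j * a i j := by
    intro i
    rw [Finset.mul_sum]
    exact Finset.sum_congr rfl fun j _ => mul_assoc _ _ _
  simp only [h1]
  rw [digit (q ^ (n + 1)) (fun i => ∑ j ∈ Finset.range (n + 1), q ^ j * a i j)
    (fun i => sum_lt q (a i) (ha i) (n + 1)) (n + 1) i (Nat.lt_succ_of_le hi)]
  exact digit q (a i) (ha i) (n + 1) j (Nat.lt_succ_of_le hj)


/-- `S_DIG`: the coefficients are the digits of the value in mixed base. -/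
theorem DIG : Pool.Agent.H683.SC.S_DIG := fun n q a ha i hi j hj => dig n q a ha i hi j hj

end Pool.Agent.H16.SPDIG
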